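import Pool.Agent.LCL89.Main.Main

set_option autoImplicit false

/-!
# The hierarchy of Baire classes of LCLs on countable groups does not collapse

For every countable ordinal `α` there is a countable group with an LCL which is Borel solvable on
all free Borel actions, but not with labelings of Baire class `α` on all free continuous actions on
zero-dimensional Polish spaces.
-/

namespace Pool.Agent.Results.MP_d9833d_lc.BaireHierarchy

open Pool.Agent.LCL89 Ordinal

theorem result : ∀ α : Ordinal.{0}, α < ω_ 1 →
    ∃ (Γ : Type) (_ : Group Γ) (_ : Countable Γ), BOREL Γ ≠ BAIRE α Γ ∧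
      ∃ P : LCL Γ, P ∈ BOREL Γ ∧ P ∉ BAIRE α Γ :=
  main

end Pool.Agent.Results.MP_d9833d_lc.BaireHierarchy
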